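import Pool.Agent.Y766.R13.Stm
import Pool.Agent.Y766.R10.Fin
import Pool.Agent.Y766.R11.ZD
import Pool.Agent.Y766.ZA

/-!
A positive proportion of discs without zeros: the final steps.
-/

set_option autoImplicit false

namespace Pool.Agent.Y766.R13

open Finset
open Pool.Agent.Y766.R3 (prim_mul)
open Pool.Agent.Y766.R10 (WG AA MM S_AFW MM_le card_char card_char_eq)
open Pool.Agent.Y766.R11 (MP MS S_FMX MP_diff)

/-- a family of entire functions with large first moment and bounded mean square near a point: a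
positive proportion has no zero in a small disc -/
lemma disc_count {ι : Type} [Fintype ι] (E : Finset ι) (f : ι → ℂ → ℂ) (s₀ : ℂ) {P M r : ℝ}
    (hr : 0 < r) (hP : 0 < P) (hM : 1 ≤ M) (hcard : (Fintype.card ι : ℝ) ≤ P)
    (hf : ∀ i, Differentiable ℂ (f i)) (h1 : P / 16 ≤ ‖∑ i ∈ E, f i s₀‖)
    (h2 : ∀ z, ‖z - s₀‖ ≤ r → ∑ i, ‖f i z‖ ^ 2 ≤ M * P) (Q : ι → Prop) [DecidablePred Q]
    (hQ : ∀ i, ¬ Q i → ∃ s : ℂ, ‖s - s₀‖ ≤ 1 / (262144 * M ^ 2) * r ∧ f i s = 0) :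
    1 / (262144 * M ^ 2) * P ≤ (((univ : Finset ι).filter Q).card : ℝ) := by
  classical
  obtain ⟨c, hc⟩ : ∃ c : ℝ, c = 1 / (262144 * M ^ 2) := ⟨_, rfl⟩
  rw [← hc] at hQ ⊢
  have hc0 : 0 < c := by rw [hc]; positivity
  have hc1 : c ≤ 1 / 2 := by
    rw [hc]
    apply one_div_le_one_div_of_le (by norm_num)
    nlinarith
  -- the members with a large value at the centre
  obtain ⟨B, hB⟩ : ∃ B : Finset ι, B = E.filter (fun i => 1 / 32 ≤ ‖f i s₀‖) := ⟨_, rfl⟩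
  have hE : (E.card : ℝ) ≤ P := le_trans (by exact_mod_cast card_le_univ E) hcard
  have h3 : P / 32 ≤ ∑ i ∈ B, ‖f i s₀‖ := by
    have h4 : ‖∑ i ∈ E, f i s₀‖ ≤ ∑ i ∈ E, ‖f i s₀‖ := norm_sum_le _ _
    have h5 : ∑ i ∈ E, ‖f i s₀‖ = ∑ i ∈ B, ‖f i s₀‖ +
        ∑ i ∈ E.filter (fun i => ¬ 1 / 32 ≤ ‖f i s₀‖), ‖f i s₀‖ := by
      rw [hB, sum_filter_add_sum_filter_not]
    have h6 : ∑ i ∈ E.filter (fun i => ¬ 1 / 32 ≤ ‖f i s₀‖), ‖f i s₀‖ ≤ P / 32 := by
      calc ∑ i ∈ E.filter (fun i => ¬ 1 / 32 ≤ ‖f i s₀‖), ‖f i s₀‖ ≤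
          ∑ i ∈ E.filter (fun i => ¬ 1 / 32 ≤ ‖f i s₀‖), (1 / 32 : ℝ) := by
            refine sum_le_sum fun i hi => ?_
            rw [mem_filter] at hi
            exact (not_le.1 hi.2).le
        _ = ((E.filter (fun i => ¬ 1 / 32 ≤ ‖f i s₀‖)).card : ℝ) * (1 / 32) := by
            rw [sum_const, nsmul_eq_mul]
        _ ≤ P * (1 / 32) := by
            apply mul_le_mul_of_nonneg_right _ (by norm_num)
            refine le_trans ?_ hE
            exact_mod_cast card_le_card (filter_subset _ _)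
        _ = _ := by ring
    linarith
  have h4 : P / (1024 * M) ≤ (B.card : ℝ) := by
    have h5 : (∑ i ∈ B, ‖f i s₀‖) ^ 2 ≤ (B.card : ℝ) * (M * P) := by
      calc (∑ i ∈ B, ‖f i s₀‖) ^ 2 ≤ (B.card : ℝ) * ∑ i ∈ B, ‖f i s₀‖ ^ 2 :=
            sq_sum_le_card_mul_sum_sq
        _ ≤ (B.card : ℝ) * (M * P) := by
            apply mul_le_mul_of_nonneg_left _ (Nat.cast_nonneg _)
            refine le_trans (sum_le_sum_of_subset_of_nonneg (subset_univ _)
              fun _ _ _ => sq_nonneg _) (h2 s₀ (by rw [sub_self, norm_zero]; exact hr.le))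
    have h6 : (P / 32) ^ 2 ≤ (∑ i ∈ B, ‖f i s₀‖) ^ 2 := pow_le_pow_left₀ (by positivity) h3 2
    rw [div_le_iff₀ (by positivity)]
    have h7 : P * P ≤ (1024 * M * B.card) * P := by nlinarith
    have h8 := le_of_mul_le_mul_right h7 hP
    linarith
  -- those with a zero nearby
  obtain ⟨Z, hZ⟩ : ∃ Z : Finset ι, Z = B.filter (fun i => ¬ Q i) := ⟨_, rfl⟩
  have hex : ∀ i, ∃ s : ℂ, ¬ Q i → ‖s - s₀‖ ≤ c * r ∧ f i s = 0 := by
    intro i
    by_cases h : Q i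
    · exact ⟨0, fun h' => absurd h h'⟩
    · obtain ⟨s, hs⟩ := hQ i h
      exact ⟨s, fun _ => hs⟩
  choose ρ hρ using hex
  have hZB : ∀ i ∈ Z, 1 / 32 ≤ ‖f i s₀‖ ∧ ¬ Q i := by
    intro i hi
    rw [hZ, hB, mem_filter, mem_filter] at hi
    exact ⟨hi.1.2, hi.2⟩
  have h5 : 1 / (32 * (c * r)) * (Z.card : ℝ) ≤ 2 * (2 * M * P / r) := by
    apply Pool.Agent.Y766.count_circle Z (fun i => dslope (f i) s₀) ρ s₀ r _ _ hr
    · intro i hi
      refine ((hρ i (hZB i hi).2).1).trans ?_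
      nlinarith
    · intro i _
      have h6 : DifferentiableOn ℂ (dslope (f i) s₀) Set.univ :=
        (Complex.differentiableOn_dslope Filter.univ_mem).2 (hf i).differentiableOn
      exact (differentiableOn_univ.1 h6).diffContOnCl
    · intro i hi
      obtain ⟨h6, h7⟩ := hZB i hi
      obtain ⟨h8, h9⟩ := hρ i h7
      have h10 : ρ i ≠ s₀ := by
        intro h
        rw [h] at h9
        rw [h9, norm_zero] at h6
        norm_num at h6
      have h11 : 0 < ‖ρ i - s₀‖ := norm_pos_iff.2 (sub_ne_zero.2 h10)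
      rw [dslope_of_ne _ h10, slope_def_field, h9, zero_sub, norm_div, norm_neg,
        div_le_div_iff₀ (by positivity) h11]
      nlinarith
    · intro z hz
      have h6 : z ≠ s₀ := by
        intro h
        rw [h, sub_self, norm_zero] at hz
        linarith
      have h7 : ∀ w, ‖w - s₀‖ ≤ r → ∑ i ∈ Z, ‖f i w‖ ≤ M * P := by
        intro w hw
        have h8 : (∑ i ∈ Z, ‖f i w‖) ^ 2 ≤ (M * P) ^ 2 := by
          calc (∑ i ∈ Z, ‖f i w‖) ^ 2 ≤ (Z.card : ℝ) * ∑ i ∈ Z, ‖f i w‖ ^ 2 :=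
                sq_sum_le_card_mul_sum_sq
            _ ≤ P * (M * P) := by
                apply mul_le_mul _ _ (sum_nonneg fun _ _ => sq_nonneg _) hP.le
                · exact le_trans (by exact_mod_cast card_le_univ Z) hcard
                · exact le_trans (sum_le_sum_of_subset_of_nonneg (subset_univ _)
                    fun _ _ _ => sq_nonneg _) (h2 w hw)
            _ ≤ (M * P) ^ 2 := by
                have : P * (M * P) = M * P ^ 2 := by ring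
                rw [this, mul_pow]
                apply mul_le_mul_of_nonneg_right _ (by positivity)
                nlinarith
        exact (pow_le_pow_iff_left₀ (sum_nonneg fun _ _ => norm_nonneg _) (by positivity)
          (by norm_num)).1 h8
      calc ∑ i ∈ Z, ‖dslope (f i) s₀ z‖ ≤ ∑ i ∈ Z, (‖f i z‖ + ‖f i s₀‖) / r := by
            refine sum_le_sum fun i _ => ?_
            rw [dslope_of_ne _ h6, slope_def_field, norm_div, hz]
            exact div_le_div_of_nonneg_right (norm_sub_le _ _) hr.le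
        _ = (∑ i ∈ Z, ‖f i z‖ + ∑ i ∈ Z, ‖f i s₀‖) / r := by
            rw [← sum_div, sum_add_distrib]
        _ ≤ (M * P + M * P) / r := by
            apply div_le_div_of_nonneg_right _ hr.le
            exact add_le_add (h7 z hz.le) (h7 s₀ (by rw [sub_self, norm_zero]; exact hr.le))
        _ = _ := by ring
  have h6 : (Z.card : ℝ) ≤ 128 * c * M * P := by
    have h7 : (Z.card : ℝ) = 1 / (32 * (c * r)) * (Z.card : ℝ) * (32 * (c * r)) := by
      field_simp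
    rw [h7]
    calc 1 / (32 * (c * r)) * (Z.card : ℝ) * (32 * (c * r)) ≤
        2 * (2 * M * P / r) * (32 * (c * r)) := mul_le_mul_of_nonneg_right h5 (by positivity)
      _ = 128 * c * M * P := by field_simp; ring
  have h7 : 128 * c * M * P = P / (2048 * M) := by
    rw [hc]
    field_simp
    norm_num
  have h8 : ((B.filter Q).card : ℝ) + (Z.card : ℝ) = (B.card : ℝ) := by
    rw [hZ]
    exact_mod_cast card_filter_add_card_filter_not (s := B) Q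
  have h9 : ((B.filter Q).card : ℝ) ≤ (((univ : Finset ι).filter Q).card : ℝ) := by
    exact_mod_cast card_le_card (filter_subset_filter _ (subset_univ _))
  have h10 : P / (1024 * M) = P / (2048 * M) + P / (2048 * M) := by
    field_simp
    norm_num
  have h11 : c * P ≤ P / (2048 * M) := by
    rw [hc, one_div_mul_eq_div]
    apply div_le_div_of_nonneg_left hP.le (by positivity)
    nlinarith
  linarith

lemma MP_eq_MM {q : ℕ} (χ : DirichletCharacter ℂ q) (κ t : ℝ) :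
    MP χ κ (1 / 2 + (t : ℂ) * Complex.I) = 2 * MM χ κ t - MM χ (κ / 2) t := rfl

open Classical in
theorem zfd_half (hX : S_FMX) (h2 : S_AFW) (h3 : S_FMP) (δ t : ℝ) (hδ : 0 < δ) :
    ∃ c : ℝ, 0 < c ∧ ∀ (p : ℕ) [Fact p.Prime], 7 ≤ p →
    ∃ ν₀ : ℕ, ∀ (ν m : ℕ) (hmν : m < ν), ν₀ ≤ ν → (19 / 58 + δ) * ν ≤ m → 2 * m ≤ ν →
    ∀ χ : DirichletCharacter ℂ (p ^ ν), χ.IsPrimitive →
    c * (p : ℝ) ^ m ≤ ((univ : Finset (DirichletCharacter ℂ (p ^ m))).filter (fun θ =>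
      ∀ s : ℂ, ‖s - (1 / 2 + (t : ℂ) * Complex.I)‖ ≤ c / (ν * Real.log p) →
        (χ * DirichletCharacter.changeLevel (pow_dvd_pow p hmν.le) θ).LFunction s ≠ 0)).card := by
  obtain ⟨κ, hκ0, hκ1, hF⟩ := hX δ hδ
  obtain ⟨C, c₁, hC, hc₁, hF⟩ := hF (|t| + 1) 1 one_pos
  obtain ⟨C2, q₀, hC2, haf⟩ := h2 t (κ / 6) (by positivity) (by linarith)
  obtain ⟨δ', hδ'⟩ : ∃ δ' : ℝ, δ' = 19 / 58 + δ - 1 / 4 := ⟨_, rfl⟩
  have hδ'0 : 0 < δ' := by rw [hδ']; linarith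
  have hκδ : 7 * κ ≤ δ' := by rw [hδ']; linarith
  obtain ⟨M, hM⟩ : ∃ M : ℝ, M = 2 * C * Real.exp c₁ + 2 := ⟨_, rfl⟩
  have hM1 : 1 ≤ M := by
    rw [hM]
    have : 0 ≤ 2 * C * Real.exp c₁ := by positivity
    linarith
  refine ⟨1 / (262144 * M ^ 2), by positivity, ?_⟩
  intro p hpf hp7
  have hp : p.Prime := hpf.out
  have hp0 : (0 : ℝ) < p := by exact_mod_cast hp.pos
  have hp7' : (7 : ℝ) ≤ p := by exact_mod_cast hp7
  have hlp : 0 < Real.log p := Real.log_pos (by linarith)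
  obtain ⟨ν₁, hF⟩ := hF p hp7
  obtain ⟨ν₂, hfm⟩ := h3 δ' κ t C2 hδ'0 hκ0 hκδ hκ1 hC2 p (by omega)
  obtain ⟨ν₃, hν₃⟩ := exists_nat_gt (1 / Real.log p)
  refine ⟨max (max ν₁ ν₂) (max (max ⌈q₀⌉₊ 12) ν₃), ?_⟩
  intro ν m hmν hν h19 h2m χ hχ
  have hν1 : ν₁ ≤ ν := le_trans (le_trans (le_max_left _ _) (le_max_left _ _)) hν
  have hν2 : ν₂ ≤ ν := le_trans (le_trans (le_max_right _ _) (le_max_left _ _)) hν
  have hν3 : ⌈q₀⌉₊ ≤ ν := le_trans (le_trans (le_trans (le_max_left _ _) (le_max_left _ _))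
    (le_max_right _ _)) hν
  have hν4 : 12 ≤ ν := le_trans (le_trans (le_trans (le_max_right _ _) (le_max_left _ _))
    (le_max_right _ _)) hν
  have hν5 : ν₃ ≤ ν := le_trans (le_trans (le_max_right _ _) (le_max_right _ _)) hν
  have hL1 : 1 < ν * Real.log p := by
    have h4 : 1 / Real.log p < ν := hν₃.trans_le (by exact_mod_cast hν5)
    rwa [div_lt_iff₀ hlp] at h4
  have hqν : 2 ^ ν ≤ p ^ ν := Nat.pow_le_pow_left hp.two_le ν
  have hq4096 : 4096 ≤ p ^ ν := by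
    calc 4096 = 2 ^ 12 := by norm_num
      _ ≤ 2 ^ ν := Nat.pow_le_pow_right (by norm_num) hν4
      _ ≤ _ := hqν
  have hq1 : 1 < p ^ ν := by omega
  have hqq : q₀ ≤ ((p ^ ν : ℕ) : ℝ) := by
    calc q₀ ≤ (⌈q₀⌉₊ : ℝ) := Nat.le_ceil _
      _ ≤ (ν : ℝ) := by exact_mod_cast hν3
      _ ≤ ((2 ^ ν : ℕ) : ℝ) := by exact_mod_cast (Nat.lt_two_pow_self).le
      _ ≤ _ := by exact_mod_cast hqν
  obtain ⟨G, γ, hG, hγ, hG0, hG1, hL⟩ := haf (p ^ ν) hqq
  obtain ⟨ψ, hψ⟩ : ∃ ψ : DirichletCharacter ℂ (p ^ m) → DirichletCharacter ℂ (p ^ ν), ψ = fun θ =>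
    χ * DirichletCharacter.changeLevel (pow_dvd_pow p hmν.le) θ := ⟨_, rfl⟩
  have hψθ : ∀ θ, χ * DirichletCharacter.changeLevel (pow_dvd_pow p hmν.le) θ = ψ θ := fun θ => by
    rw [hψ]
  have hprim : ∀ θ, (ψ θ).IsPrimitive := fun θ => by
    rw [hψ]; exact prim_mul hp hmν hχ θ
  have hGκ : ∀ v, 1 / 2 + κ / 2 ≤ v → G v = 0 := fun v hv => hG0 v (by linarith)
  have hF2 := hF ν m hmν hν1 h19 χ hχ
  have hf2 := hfm ν m hmν hν2 (by
    rw [hδ']
    linarith) h2m χ hχ G hG hGκ hG1 γ hγ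
  simp only [hψθ] at hF2 hf2 ⊢
  obtain ⟨q, hq⟩ : ∃ q : ℝ, q = ((p ^ ν : ℕ) : ℝ) := ⟨_, rfl⟩
  have hqr : q = (p : ℝ) ^ ν := by rw [hq]; push_cast; rfl
  have hq4096' : (4096 : ℝ) ≤ q := by rw [hq]; exact_mod_cast hq4096
  have hq0 : 0 < q := by linarith
  rw [← hqr] at hf2
  rw [← hq] at hL
  have hne : ∀ θ, ψ θ ≠ 1 := by
    intro θ h
    have h5 : (ψ θ).conductor = p ^ ν := hprim θ
    rw [h, DirichletCharacter.conductor_one] at h5
    omega
  have hLd : ∀ θ, Differentiable ℂ (ψ θ).LFunction :=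
    fun θ => DirichletCharacter.differentiable_LFunction (hne θ)
  -- notation
  obtain ⟨s₀, hs₀⟩ : ∃ s₀ : ℂ, s₀ = 1 / 2 + (t : ℂ) * Complex.I := ⟨_, rfl⟩
  obtain ⟨Ls, hLs⟩ : ∃ Ls : DirichletCharacter ℂ (p ^ m) → ℂ, Ls = fun θ =>
    (ψ θ).LFunction (1 / 2 + (t : ℂ) * Complex.I) := ⟨_, rfl⟩
  obtain ⟨Ms, hMs⟩ : ∃ Ms : DirichletCharacter ℂ (p ^ m) → ℂ, Ms = fun θ =>
    2 * MM (ψ θ) κ t - MM (ψ θ) (κ / 2) t := ⟨_, rfl⟩
  obtain ⟨Es, hEs⟩ : ∃ Es : DirichletCharacter ℂ (p ^ m) → ℂ, Es = fun θ => (AA (ψ θ) G t +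
      γ * (gaussSum (ψ θ) ZMod.stdAddChar / (Real.sqrt q : ℂ)) *
      (starRingEnd ℂ) (AA (ψ θ) G t)) := ⟨_, rfl⟩
  obtain ⟨s, hs⟩ : ∃ s : Finset (DirichletCharacter ℂ (p ^ m)), s = univ.filter
    (fun θ => (ψ θ).Even) := ⟨_, rfl⟩
  have hsq : 64 ≤ q ^ (1 / 2 : ℝ) := by
    have : (64 : ℝ) = 4096 ^ (1 / 2 : ℝ) := by
      rw [← Real.sqrt_eq_rpow, show (4096 : ℝ) = 64 ^ 2 by norm_num, Real.sqrt_sq (by norm_num)]
    rw [this]
    exact Real.rpow_le_rpow (by norm_num) hq4096' (by norm_num)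
  have hMn : ∀ θ, ‖Ms θ‖ ≤ q / 16 := by
    intro θ
    rw [hMs]
    have e1 := MM_le hq1 (ψ θ) hκ0 t
    have e2 := MM_le hq1 (ψ θ) (half_pos hκ0) t
    rw [← hq] at e1 e2
    have h4 : q ^ κ ≤ q ^ (1 / 2 : ℝ) := Real.rpow_le_rpow_of_exponent_le (by linarith) (by linarith)
    have h4' : q ^ (κ / 2) ≤ q ^ (1 / 2 : ℝ) :=
      Real.rpow_le_rpow_of_exponent_le (by linarith) (by linarith)
    have h5 : q = q ^ (1 / 2 : ℝ) * q ^ (1 / 2 : ℝ) := by
      rw [← Real.rpow_add hq0]; norm_num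
    have h6 : 0 < q ^ (1 / 2 : ℝ) := by positivity
    have h7 : ‖2 * MM (ψ θ) κ t - MM (ψ θ) (κ / 2) t‖ ≤ 3 * q ^ (1 / 2 : ℝ) := by
      refine (norm_sub_le _ _).trans ?_
      rw [norm_mul]
      have : ‖(2 : ℂ)‖ = 2 := by norm_num
      rw [this]
      linarith
    refine h7.trans ?_
    rw [le_div_iff₀ (by norm_num)]
    calc 3 * q ^ (1 / 2 : ℝ) * 16 ≤ q ^ (1 / 2 : ℝ) * q ^ (1 / 2 : ℝ) := by nlinarith
      _ = q := h5.symm
  have hdiff : ∀ θ ∈ s, ‖(Ls θ - Es θ) * Ms θ‖ ≤ 1 / 16 := by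
    intro θ hθ
    rw [hs, mem_filter] at hθ
    have h4 := hL (ψ θ) (hprim θ) hθ.2
    rw [norm_mul]
    have h5 : ‖Ls θ - Es θ‖ ≤ 1 / q := by rw [hLs, hEs]; exact h4
    calc _ ≤ 1 / q * (q / 16) := mul_le_mul h5 (hMn θ) (norm_nonneg _) (by positivity)
      _ = 1 / 16 := by field_simp
  have hscard : (s.card : ℝ) ≤ (p : ℝ) ^ m := by
    refine le_trans ?_ (card_char m)
    rw [hs]
    exact_mod_cast card_le_univ _
  have hpm : (0 : ℝ) < (p : ℝ) ^ m := by positivity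
  have hfirst : (p : ℝ) ^ m / 16 ≤ ‖∑ θ ∈ s, Ls θ * Ms θ‖ := by
    have e1 : ∑ θ ∈ s, Es θ * Ms θ = ∑ θ ∈ s, Ls θ * Ms θ - ∑ θ ∈ s, (Ls θ - Es θ) * Ms θ := by
      rw [← sum_sub_distrib]
      exact sum_congr rfl fun θ _ => by ring
    have e2 : ‖∑ θ ∈ s, (Ls θ - Es θ) * Ms θ‖ ≤ (p : ℝ) ^ m / 16 := by
      calc _ ≤ ∑ θ ∈ s, ‖(Ls θ - Es θ) * Ms θ‖ := norm_sum_le _ _
        _ ≤ ∑ θ ∈ s, (1 / 16 : ℝ) := sum_le_sum hdiff
        _ = s.card * (1 / 16) := by rw [sum_const, nsmul_eq_mul]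
        _ ≤ (p : ℝ) ^ m * (1 / 16) := by gcongr
        _ = _ := by ring
    have e3 : (p : ℝ) ^ m / 8 ≤ ‖∑ θ ∈ s, Es θ * Ms θ‖ := by
      rw [hs, hEs, hMs]
      exact hf2
    have e4 : ‖∑ θ ∈ s, Es θ * Ms θ‖ ≤ ‖∑ θ ∈ s, Ls θ * Ms θ‖ + ‖∑ θ ∈ s, (Ls θ - Es θ) * Ms θ‖ := by
      rw [e1]; exact norm_sub_le _ _
    linarith
  obtain ⟨L, hLL⟩ : ∃ L : ℝ, L = ν * Real.log p := ⟨_, rfl⟩
  rw [← hLL] at hL1 ⊢
  have hL0 : 0 < L := by linarith
  have hsecond : ∀ z : ℂ, ‖z - s₀‖ ≤ 1 / L →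
      ∑ θ, ‖(ψ θ).LFunction z * MP (ψ θ) κ z‖ ^ 2 ≤ M * (p : ℝ) ^ m := by
    intro z hz
    have hre := Complex.abs_re_le_norm (z - s₀)
    have him := Complex.abs_im_le_norm (z - s₀)
    have e1 : (z - s₀).re = z.re - 1 / 2 := by rw [hs₀]; simp
    have e2 : (z - s₀).im = z.im - t := by rw [hs₀]; simp
    rw [e1] at hre
    rw [e2] at him
    have hL2 : 1 / L ≤ 1 := by rw [div_le_one hL0]; exact hL1.le
    obtain ⟨h4, h5⟩ := abs_le.1 (hre.trans hz)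
    have h6 := hF2 z (by rw [← hLL]; linarith) (by linarith) (by
      have h7 : z.im = (z.im - t) + t := by ring
      rw [h7]
      refine (abs_add_le _ _).trans ?_
      have := him.trans hz
      linarith)
    rw [← hLL] at h6
    have h7 : Real.exp (-c₁ * (z.re - 1 / 2) * L) ≤ Real.exp c₁ := by
      apply Real.exp_le_exp.2
      have h8 : -(z.re - 1 / 2) * L ≤ 1 := by
        have := mul_le_mul_of_nonneg_right h4 hL0.le
        have e3 : -(1 / L) * L = -1 := by field_simp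
        linarith
      nlinarith
    have h8 : ∑ θ, ‖(ψ θ).LFunction z * MP (ψ θ) κ z - 1‖ ^ 2 ≤ C * Real.exp c₁ * (p : ℝ) ^ m := by
      refine h6.trans ?_
      apply mul_le_mul_of_nonneg_right _ hpm.le
      exact mul_le_mul_of_nonneg_left h7 hC.le
    calc ∑ θ, ‖(ψ θ).LFunction z * MP (ψ θ) κ z‖ ^ 2 ≤
        ∑ θ, (2 * ‖(ψ θ).LFunction z * MP (ψ θ) κ z - 1‖ ^ 2 + 2) := by
          refine sum_le_sum fun θ _ => ?_
          have h9 : ‖(ψ θ).LFunction z * MP (ψ θ) κ z‖ ≤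
              ‖(ψ θ).LFunction z * MP (ψ θ) κ z - 1‖ + 1 := by
            calc _ = ‖((ψ θ).LFunction z * MP (ψ θ) κ z - 1) + 1‖ := by ring_nf
              _ ≤ _ := (norm_add_le _ _).trans (by simp)
          have h10 : 0 ≤ ‖(ψ θ).LFunction z * MP (ψ θ) κ z - 1‖ := norm_nonneg _
          calc _ ≤ (‖(ψ θ).LFunction z * MP (ψ θ) κ z - 1‖ + 1) ^ 2 :=
                pow_le_pow_left₀ (norm_nonneg _) h9 2
            _ ≤ _ := by nlinarith [sq_nonneg (‖(ψ θ).LFunction z * MP (ψ θ) κ z - 1‖ - 1)]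
      _ = 2 * ∑ θ, ‖(ψ θ).LFunction z * MP (ψ θ) κ z - 1‖ ^ 2 +
          (Fintype.card (DirichletCharacter ℂ (p ^ m)) : ℝ) * 2 := by
          rw [sum_add_distrib, ← mul_sum, sum_const, nsmul_eq_mul, card_univ]
      _ ≤ 2 * (C * Real.exp c₁ * (p : ℝ) ^ m) + (p : ℝ) ^ m * 2 := by
          have := card_char (p := p) m
          gcongr
      _ = _ := by rw [hM]; ring
  have hmain := disc_count s (fun θ z => (ψ θ).LFunction z * MP (ψ θ) κ z) s₀
    (P := (p : ℝ) ^ m) (M := M) (r := 1 / L) (by positivity) hpm hM1 (card_char m)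
    (fun θ => (hLd θ).mul (MP_diff _ κ)) (by
      rw [hs₀]
      refine hfirst.trans (le_of_eq ?_)
      congr 1
      refine sum_congr rfl fun θ _ => ?_
      rw [hLs, hMs, MP_eq_MM]) hsecond
    (fun θ => ∀ s : ℂ, ‖s - (1 / 2 + (t : ℂ) * Complex.I)‖ ≤ 1 / (262144 * M ^ 2) / L →
        (ψ θ).LFunction s ≠ 0) (by
      intro θ h
      push Not at h
      obtain ⟨s', hs1, hs2⟩ := h
      refine ⟨s', ?_, by rw [hs2, zero_mul]⟩
      rw [hs₀]
      refine hs1.trans (le_of_eq ?_)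
      ring)
  refine hmain.trans (le_of_eq ?_)
  congr!

open Classical in
/-- unions of cosets -/
lemma coset_union {p : ℕ} [Fact p.Prime] {ν m m' : ℕ} (hmν : m < ν) (hm'ν : m' < ν) (hm'm : m' < m)
    (hm'1 : 1 ≤ m') (χ : DirichletCharacter ℂ (p ^ ν)) (P : DirichletCharacter ℂ (p ^ ν) → Prop)
    {c : ℝ} (h : ∀ θ : DirichletCharacter ℂ (p ^ m), c * (p : ℝ) ^ m' ≤
      (((univ : Finset (DirichletCharacter ℂ (p ^ m'))).filter (fun θ' =>
        P (χ * DirichletCharacter.changeLevel (pow_dvd_pow p hmν.le) θ *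
          DirichletCharacter.changeLevel (pow_dvd_pow p hm'ν.le) θ'))).card : ℝ)) :
    c * (p : ℝ) ^ m ≤ (((univ : Finset (DirichletCharacter ℂ (p ^ m))).filter (fun θ =>
        P (χ * DirichletCharacter.changeLevel (pow_dvd_pow p hmν.le) θ))).card : ℝ) := by
  have hp : p.Prime := Fact.out
  have hp0 : (0 : ℝ) < p := by exact_mod_cast hp.pos
  have hp1 : (1 : ℝ) < p := by exact_mod_cast hp.one_lt
  have key : ∀ θ : DirichletCharacter ℂ (p ^ m), c * (p : ℝ) ^ m' ≤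
      ∑ θ' : DirichletCharacter ℂ (p ^ m'),
        (if P (χ * DirichletCharacter.changeLevel (pow_dvd_pow p hmν.le) θ *
          DirichletCharacter.changeLevel (pow_dvd_pow p hm'ν.le) θ') then (1 : ℝ) else 0) := by
    intro θ
    rw [sum_boole]
    exact h θ
  have hsum : ∑ θ : DirichletCharacter ℂ (p ^ m), ∑ θ' : DirichletCharacter ℂ (p ^ m'),
        (if P (χ * DirichletCharacter.changeLevel (pow_dvd_pow p hmν.le) θ *
          DirichletCharacter.changeLevel (pow_dvd_pow p hm'ν.le) θ') then (1 : ℝ) else 0) =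
      (Fintype.card (DirichletCharacter ℂ (p ^ m')) : ℝ) *
        ∑ θ : DirichletCharacter ℂ (p ^ m),
        (if P (χ * DirichletCharacter.changeLevel (pow_dvd_pow p hmν.le) θ) then (1 : ℝ) else 0) := by
    rw [sum_comm]
    have h5 : ∀ θ' : DirichletCharacter ℂ (p ^ m'), ∑ θ : DirichletCharacter ℂ (p ^ m),
        (if P (χ * DirichletCharacter.changeLevel (pow_dvd_pow p hmν.le) θ *
          DirichletCharacter.changeLevel (pow_dvd_pow p hm'ν.le) θ') then (1 : ℝ) else 0) =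
        ∑ θ : DirichletCharacter ℂ (p ^ m),
        (if P (χ * DirichletCharacter.changeLevel (pow_dvd_pow p hmν.le) θ) then (1 : ℝ) else 0) := by
      intro θ'
      rw [← Equiv.sum_comp (Equiv.mulRight
        (DirichletCharacter.changeLevel (pow_dvd_pow p hm'm.le) θ'))
        (fun θ => if P (χ * DirichletCharacter.changeLevel (pow_dvd_pow p hmν.le) θ) then (1 : ℝ) else 0)]
      refine sum_congr rfl fun θ _ => ?_
      have e1 : DirichletCharacter.changeLevel (pow_dvd_pow p hm'ν.le) θ' =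
          DirichletCharacter.changeLevel (pow_dvd_pow p hmν.le)
            (DirichletCharacter.changeLevel (pow_dvd_pow p hm'm.le) θ') :=
        DirichletCharacter.changeLevel_trans θ' _ _
      rw [Equiv.coe_mulRight, map_mul, e1, mul_assoc]
    rw [sum_congr rfl fun θ' _ => h5 θ', sum_const, card_univ, nsmul_eq_mul]
  have h6 : (Fintype.card (DirichletCharacter ℂ (p ^ m)) : ℝ) * (c * (p : ℝ) ^ m') ≤
      (Fintype.card (DirichletCharacter ℂ (p ^ m')) : ℝ) *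
        ∑ θ : DirichletCharacter ℂ (p ^ m),
        (if P (χ * DirichletCharacter.changeLevel (pow_dvd_pow p hmν.le) θ) then (1 : ℝ) else 0) := by
    rw [← hsum, ← nsmul_eq_mul, ← card_univ, ← sum_const]
    exact sum_le_sum fun θ _ => key θ
  rw [card_char_eq (by omega : 1 ≤ m), card_char_eq hm'1, sum_boole] at h6
  have h7 : (p : ℝ) ^ (m - 1) * (p - 1) * (c * (p : ℝ) ^ m') =
      (p : ℝ) ^ (m' - 1) * (p - 1) * (c * (p : ℝ) ^ m) := by
    have e1 : (p : ℝ) ^ m = (p : ℝ) ^ (m - 1) * p := by rw [← pow_succ]; congr 1; omega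
    have e2 : (p : ℝ) ^ m' = (p : ℝ) ^ (m' - 1) * p := by rw [← pow_succ]; congr 1; omega
    rw [e1, e2]; ring
  rw [h7] at h6
  exact le_of_mul_le_mul_left h6 (by
    have : (0 : ℝ) < p - 1 := by linarith
    positivity)

theorem zfd (hX : S_FMX) (h2 : S_AFW) (h3 : S_FMP) : S_ZFD := by
  intro δ t hδ
  obtain ⟨δ', hδ'⟩ : ∃ δ' : ℝ, δ' = min δ (1 / 20) := ⟨_, rfl⟩
  have hδ0 : 0 < δ' := by rw [hδ']; positivity
  have hδ1 : δ' ≤ δ := by rw [hδ']; exact min_le_left _ _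
  have hδ2 : δ' ≤ 1 / 20 := by rw [hδ']; exact min_le_right _ _
  obtain ⟨c, hc, h⟩ := zfd_half hX h2 h3 δ' t hδ0
  refine ⟨c, hc, ?_⟩
  intro p hpf hp7
  have hp : p.Prime := hpf.out
  obtain ⟨ν₁, h⟩ := h p hp7
  refine ⟨max ν₁ 10, ?_⟩
  intro ν m hmν hν h19 χ hχ
  have hν1 : ν₁ ≤ ν := le_trans (le_max_left _ _) hν
  have hν2 : 10 ≤ ν := le_trans (le_max_right _ _) hν
  have hνr : (10 : ℝ) ≤ ν := by exact_mod_cast hν2
  rcases le_or_gt (2 * m) ν with h2m | h2m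
  · exact h ν m hmν hν1 (by nlinarith) h2m χ hχ
  obtain ⟨m', hm'⟩ : ∃ m' : ℕ, m' = ν / 2 := ⟨_, rfl⟩
  have hm'1 : 1 ≤ m' := by omega
  have hm'm : m' < m := by omega
  have hm'ν : m' < ν := by omega
  have h19' : (19 / 58 + δ') * ν ≤ m' := by
    have h4 : (ν : ℝ) ≤ 2 * m' + 1 := by exact_mod_cast (by omega : ν ≤ 2 * m' + 1)
    nlinarith
  exact coset_union hmν hm'ν hm'm hm'1 χ (fun ψ =>
      ∀ s : ℂ, ‖s - (1 / 2 + (t : ℂ) * Complex.I)‖ ≤ c / (ν * Real.log p) →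
        ψ.LFunction s ≠ 0)
    (fun θ => h ν m' hm'ν hν1 h19' (by omega)
      (χ * DirichletCharacter.changeLevel (pow_dvd_pow p hmν.le) θ) (prim_mul hp hmν hχ θ))

end Pool.Agent.Y766.R13
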