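import Pool.Agent.Y766.R11.Stm2

/-!
Statements for project R13: a positive proportion of the `L(s, χθ)` has no zero in a disc of radius
`c / log q` about `1/2 + it`.
-/

set_option autoImplicit false

namespace Pool.Agent.Y766.R13

open Finset
open Pool.Agent.Y766.R10 (WG AA MM)

open Classical in
/-- FMP: the mollified first moment with the second mollifier -/
def S_FMP : Prop := ∀ δ κ t C : ℝ, 0 < δ → 0 < κ → 7 * κ ≤ δ → κ ≤ 1 / 100 → 0 < C →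
  ∀ (p : ℕ) [Fact p.Prime], 3 ≤ p → ∃ ν₀ : ℕ, ∀ (ν m : ℕ) (hmν : m < ν), ν₀ ≤ ν →
  (1 / 4 + δ) * ν ≤ m → 2 * m ≤ ν → ∀ χ : DirichletCharacter ℂ (p ^ ν), χ.IsPrimitive →
  ∀ G : ℝ → ℂ, WG C G → (∀ v, 1 / 2 + κ / 2 ≤ v → G v = 0) → ‖G 0 - 1‖ ≤ 1 / 4 →
  ∀ γ : ℂ, ‖γ‖ = 1 →
  (p : ℝ) ^ m / 8 ≤ ‖∑ θ ∈ (univ : Finset (DirichletCharacter ℂ (p ^ m))).filter
      (fun θ => (χ * DirichletCharacter.changeLevel (pow_dvd_pow p hmν.le) θ).Even),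
    (AA (χ * DirichletCharacter.changeLevel (pow_dvd_pow p hmν.le) θ) G t +
      γ * (gaussSum (χ * DirichletCharacter.changeLevel (pow_dvd_pow p hmν.le) θ) ZMod.stdAddChar /
        (Real.sqrt ((p : ℝ) ^ ν) : ℂ)) *
      (starRingEnd ℂ) (AA (χ * DirichletCharacter.changeLevel (pow_dvd_pow p hmν.le) θ) G t)) *
      (2 * MM (χ * DirichletCharacter.changeLevel (pow_dvd_pow p hmν.le) θ) κ t -
        MM (χ * DirichletCharacter.changeLevel (pow_dvd_pow p hmν.le) θ) (κ / 2) t)‖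

open Classical in
/-- ZFD: a positive proportion of discs without zeros -/
def S_ZFD : Prop := ∀ δ t : ℝ, 0 < δ → ∃ c : ℝ, 0 < c ∧ ∀ (p : ℕ) [Fact p.Prime], 7 ≤ p →
  ∃ ν₀ : ℕ, ∀ (ν m : ℕ) (hmν : m < ν), ν₀ ≤ ν → (19 / 58 + δ) * ν ≤ m →
  ∀ χ : DirichletCharacter ℂ (p ^ ν), χ.IsPrimitive →
  c * (p : ℝ) ^ m ≤ ((univ : Finset (DirichletCharacter ℂ (p ^ m))).filter (fun θ =>
    ∀ s : ℂ, ‖s - (1 / 2 + (t : ℂ) * Complex.I)‖ ≤ c / (ν * Real.log p) →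
      (χ * DirichletCharacter.changeLevel (pow_dvd_pow p hmν.le) θ).LFunction s ≠ 0)).card

end Pool.Agent.Y766.R13
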